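import Pool.Graph.R_pool_sql_team_seeded_47a924f7.T6.H25.GG.A1
import Pool.Graph.R_pool_sql_team_seeded_47a924f7.T6.H25.GG.A2
import Pool.Graph.R_pool_sql_team_seeded_47a924f7.T6.H25.GG.ALG
import Pool.Graph.R_pool_sql_team_seeded_47a924f7.T6.H25.GG.B
import Pool.Graph.R_pool_sql_team_seeded_47a924f7.T6.H25.GG.C
import Pool.Graph.R_pool_sql_team_seeded_47a924f7.T6.H25.GG.CST
import Pool.Graph.R_pool_sql_team_seeded_47a924f7.T6.H25.GG.D
import Pool.Graph.R_pool_sql_team_seeded_47a924f7.T6.H25.GG.E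
import Pool.Graph.R_pool_sql_team_seeded_47a924f7.T6.H25.GG.EL
import Pool.Graph.R_pool_sql_team_seeded_47a924f7.T6.H25.GG.Fin
import Pool.Graph.R_pool_sql_team_seeded_47a924f7.T6.H25.GG.G0
import Pool.Graph.R_pool_sql_team_seeded_47a924f7.T6.H25.GG.G1
import Pool.Graph.R_pool_sql_team_seeded_47a924f7.T6.H25.GG.G2
import Pool.Graph.R_pool_sql_team_seeded_47a924f7.T6.H25.GG.GS
import Pool.Graph.R_pool_sql_team_seeded_47a924f7.T6.H25.GG.H
import Pool.Graph.R_pool_sql_team_seeded_47a924f7.T6.H25.GG.H1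
import Pool.Graph.R_pool_sql_team_seeded_47a924f7.T6.H25.GG.I
import Pool.Graph.R_pool_sql_team_seeded_47a924f7.T6.H25.GG.J1
import Pool.Graph.R_pool_sql_team_seeded_47a924f7.T6.H25.GG.J2
import Pool.Graph.R_pool_sql_team_seeded_47a924f7.T6.H25.GG.L
import Pool.Graph.R_pool_sql_team_seeded_47a924f7.T6.H25.GG.L1
import Pool.Graph.R_pool_sql_team_seeded_47a924f7.T6.H25.GG.L2
import Pool.Graph.R_pool_sql_team_seeded_47a924f7.T6.H25.GG.MV
import Pool.Graph.R_pool_sql_team_seeded_47a924f7.T6.H25.GG.PAR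
import Pool.Graph.R_pool_sql_team_seeded_47a924f7.T6.H25.GG.Q
import Pool.Graph.R_pool_sql_team_seeded_47a924f7.T6.H25.GG.SYM
import Pool.Graph.R_pool_sql_team_seeded_47a924f7.T6.H25.GG.U

/-!
# MP_b6554e_al: polynomial geodesic growth of degree strictly between integers

For every `β ≥ 229` there is a finitely generated group with a finite generating set whose geodesic growth
function lies between constant multiples of `n ^ (9 β + 1/2)` and `n ^ (9 β + 9/10)`.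
-/

set_option autoImplicit false

namespace Pool.Agent.Results.MP_b6554e_al.NonIntegerDegrees

open Pool.Agent.T6.H25.GG

/-- The geodesic growth function: the number of words `w` of length at most `n` over `S ∪ S⁻¹` whose length is
the least length of a word over `S ∪ S⁻¹` with the same value. -/
noncomputable def geodesicGrowth {G : Type} [Group G] (S : Finset G) (n : ℕ) : ℕ :=
  Set.ncard {w : List G | w.length ≤ n ∧ (∀ x ∈ w, x ∈ S ∨ x⁻¹ ∈ S) ∧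
    ∀ v : List G, (∀ x ∈ v, x ∈ S ∨ x⁻¹ ∈ S) → v.prod = w.prod → w.length ≤ v.length}

/-- `f ≼ g`: there is `C ≥ 1` with `f(n) ≤ C g(C n) + C` for all `n`. -/
def Dominated (f g : ℕ → ℕ) : Prop := ∃ C : ℕ, 1 ≤ C ∧ ∀ n, f n ≤ C * g (C * n) + C

/-- the estimates along tenth powers, from the library -/
lemma core (β : ℕ) (hβ : 229 ≤ β) :
    ∃ (G : Type) (_ : Group G) (S : Finset G), Subgroup.closure (S : Set G) = ⊤ ∧
      Monotone (geodesicGrowth S) ∧ 1 ≤ geodesicGrowth S 0 ∧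
      (∃ C0 C1 N0 : ℕ, ∀ N : ℕ, N0 ≤ N → N ^ (90 * β + 5) ≤ C1 * geodesicGrowth S ((C0 * N) ^ 10)) ∧
      (∃ C N0 : ℕ, ∀ N : ℕ, N0 ≤ N → geodesicGrowth S (N ^ 10) ≤ C * N ^ (90 * β + 9)) := by
  have hPAR := par
  have hALG := alg
  have hB := b_cut
  have hSYM := sym hPAR
  have hMV := mv hALG
  have hCST := cst
  have hC := c hB hPAR hALG hSYM
  have hD := d hC hPAR hSYM
  have hE := e
  have hEL := el hD hE hMV hPAR hALG
  have hG0 := g0 hALG hPAR hMV hCST hD hEL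
  have hG1 := g1 hALG hPAR hMV hCST hD hEL
  have hG2 := g2 hALG hPAR hMV hD
  have hGS := gs hPAR hG0 hG1
  have hH := h h1
  have hI := i
  have hQ := q
  have hJ1 := j1 hD hMV hALG
  have hJ2 := j2
  have hU := u hB hALG hSYM hD hG0 hG1 hG2 hGS hH hI hQ hJ1 hJ2
  have hL := l (l1 hPAR) (l2 hB hALG)
  have : NeZero (3 * (2 * β)) := ⟨by omega⟩
  have hr2 : 2 ≤ 3 * (2 * β) := by omega
  obtain ⟨G, instG, S, hcl, hgam⟩ := a1 (3 * (2 * β)) hr2
  obtain ⟨hlow, hup⟩ := a2 (3 * (2 * β)) hr2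
  have hgg : ∀ n, geodesicGrowth S n = gam G S n := fun n => rfl
  have hfin : ∀ n, {W : List (Lt (3 * (2 * β))) | W.length ≤ n ∧ GeoW (3 * (2 * β)) W}.Finite := fun n =>
    (List.finite_length_le (Lt (3 * (2 * β))) n).subset fun W hW => hW.1
  refine ⟨G, instG, S, hcl, ?_, ?_, ?_, ?_⟩
  · intro m n hmn
    rw [hgg, hgg, hgam, hgam]
    exact Set.ncard_le_ncard (fun W hW => ⟨hW.1.trans hmn, hW.2⟩) (hfin n)
  · rw [hgg, hgam]
    refine (Set.ncard_pos (hfin 0)).mpr ⟨[], by simp, fun W' _ => by simp⟩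
  · obtain ⟨C0, C1, N0, hN⟩ := hL (3 * (2 * β)) hr2
    refine ⟨C0, C1, N0, fun N hN0 => ?_⟩
    have h3 := hN N hN0
    have h4 : 15 * (3 * (2 * β)) + 5 = 90 * β + 5 := by ring
    rw [h4] at h3
    refine h3.trans (Nat.mul_le_mul_left _ ?_)
    rw [hgg, hgam]
    exact hlow ((C0 * N) ^ 10) (-1)
  · have hbrk : ∀ j D, Geo (3 * (2 * β)) 0 j D → brk (3 * (2 * β)) D ≤ 2 * (3 * (2 * β)) + 4 := by
      intro j D hj
      obtain ⟨h3, h4⟩ := (hD (3 * (2 * β)) 0 j).2.2.1 D hj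
      have := Fin'.card_le_two (3 * (2 * β)) D
      omega
    choose Cj Nj hCj using fun j : ZMod (2 * (3 * (2 * β))) => hU (2 * β) (by omega) 0 j
    refine ⟨(4 * (3 * (2 * β))) ^ (2 * (3 * (2 * β)) + 4 + 3) * ∑ j : ZMod (2 * (3 * (2 * β))), Cj j,
      ∑ j : ZMod (2 * (3 * (2 * β))), Nj j, fun N hN => ?_⟩
    rw [hgg, hgam]
    refine (hup (2 * (3 * (2 * β)) + 4) hbrk _).trans ?_
    rw [mul_assoc]
    apply Nat.mul_le_mul_left
    rw [Finset.sum_mul]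
    apply Finset.sum_le_sum
    intro j _
    have h3 := hCj j N ((Finset.single_le_sum (f := Nj) (fun _ _ => Nat.zero_le _) (Finset.mem_univ j)).trans hN)
    have h4 : 45 * (2 * β) + 9 = 90 * β + 9 := by ring
    rw [h4] at h3
    exact h3

/-- from tenth powers to all `n` -/
lemma interp (g : ℕ → ℕ) (hg : Monotone g) (h0 : 1 ≤ g 0) (a b : ℕ)
    (hlow : ∃ C0 C1 N0 : ℕ, ∀ N : ℕ, N0 ≤ N → N ^ a ≤ C1 * g ((C0 * N) ^ 10))
    (hup : ∃ C N0 : ℕ, ∀ N : ℕ, N0 ≤ N → g (N ^ 10) ≤ C * N ^ b) :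
    ∃ K : ℝ, 0 < K ∧ ∀ n : ℕ, 1 ≤ n →
      (n : ℝ) ^ ((a : ℝ) / 10) ≤ K * g n ∧ (g n : ℝ) ≤ K * (n : ℝ) ^ ((b : ℝ) / 10) := by
  obtain ⟨C0, C1, N0, h1⟩ := hlow
  obtain ⟨C, N1, h2⟩ := hup
  have hx : ∀ n : ℕ, 1 ≤ n → ∃ x : ℝ, 1 ≤ x ∧ x ^ 10 = n ∧ ∀ k : ℕ, (n : ℝ) ^ ((k : ℝ) / 10) = x ^ k := by
    intro n hn
    refine ⟨(n : ℝ) ^ ((1 : ℝ) / 10), ?_, ?_, fun k => ?_⟩
    · exact Real.one_le_rpow (by exact_mod_cast hn) (by norm_num)
    · rw [← Real.rpow_natCast, ← Real.rpow_mul (by positivity)]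
      norm_num
    · rw [← Real.rpow_natCast, ← Real.rpow_mul (by positivity)]
      congr 1
      ring
  -- the constants
  obtain ⟨D, hD⟩ : ∃ D : ℕ, D = C0 + 1 := ⟨_, rfl⟩
  have hDpos : 0 < D := by omega
  have low : ∀ n : ℕ, 1 ≤ n → (n : ℝ) ^ ((a : ℝ) / 10) ≤
      (((D * (N0 + 1) : ℕ) : ℝ) ^ a + (2 * D : ℕ) ^ a * C1) * g n := by
    intro n hn
    obtain ⟨x, hx1, hx10, hxk⟩ := hx n hn
    rw [hxk a]
    have hg1 : (1 : ℝ) ≤ g n := by exact_mod_cast h0.trans (hg (Nat.zero_le n))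
    obtain ⟨N, hN⟩ : ∃ N : ℕ, N = ⌊x / D⌋₊ := ⟨_, rfl⟩
    have hDr : (0 : ℝ) < D := by exact_mod_cast hDpos
    have hlt : x < D * (N + 1) := by
      have := Nat.lt_floor_add_one (x / D)
      rw [← hN, div_lt_iff₀ hDr] at this
      linarith
    have hle : (D : ℝ) * N ≤ x := by
      have := Nat.floor_le (show 0 ≤ x / D by positivity)
      rw [← hN, le_div_iff₀ hDr] at this
      linarith
    have hA : (0 : ℝ) ≤ ((D * (N0 + 1) : ℕ) : ℝ) ^ a := by positivity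
    have hB : (0 : ℝ) ≤ ((2 * D : ℕ) : ℝ) ^ a * C1 := by positivity
    by_cases hc : N0 + 1 ≤ N
    · have h3 := h1 N (by omega)
      have h4 : g ((C0 * N) ^ 10) ≤ g n := by
        apply hg
        have h5 : (((C0 * N) ^ 10 : ℕ) : ℝ) ≤ (n : ℝ) := by
          rw [← hx10]
          push_cast
          have h6 : (C0 : ℝ) ≤ D := by rw [hD]; push_cast; linarith
          exact pow_le_pow_left₀ (by positivity) ((mul_le_mul_of_nonneg_right h6 (by positivity)).trans hle) 10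
        exact_mod_cast h5
      have h5 : ((N ^ a : ℕ) : ℝ) ≤ C1 * g n := by
        exact_mod_cast h3.trans (Nat.mul_le_mul_left _ h4)
      have h6 : x ≤ (2 * D : ℕ) * N := by
        have : (1 : ℝ) ≤ N := by
          have : 1 ≤ N := by omega
          exact_mod_cast this
        push_cast
        nlinarith
      calc x ^ a ≤ (((2 * D : ℕ) : ℝ) * N) ^ a := pow_le_pow_left₀ (by linarith) h6 a
        _ = ((2 * D : ℕ) : ℝ) ^ a * (N : ℝ) ^ a := mul_pow _ _ _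
        _ ≤ ((2 * D : ℕ) : ℝ) ^ a * (C1 * g n) := by
            apply mul_le_mul_of_nonneg_left _ (by positivity)
            exact_mod_cast h5
        _ ≤ _ := by nlinarith
    · have h6 : x ≤ ((D * (N0 + 1) : ℕ) : ℝ) := by
        have h7 : (N : ℝ) ≤ N0 := by
          have : N ≤ N0 := by omega
          exact_mod_cast this
        push_cast
        nlinarith
      calc x ^ a ≤ ((D * (N0 + 1) : ℕ) : ℝ) ^ a := pow_le_pow_left₀ (by linarith) h6 a
        _ ≤ (((D * (N0 + 1) : ℕ) : ℝ) ^ a + (2 * D : ℕ) ^ a * C1) * 1 := by linarith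
        _ ≤ _ := mul_le_mul_of_nonneg_left hg1 (by positivity)
  have up : ∀ n : ℕ, 1 ≤ n → (g n : ℝ) ≤ (C * ((N1 + 2 : ℕ) : ℝ) ^ b) * (n : ℝ) ^ ((b : ℝ) / 10) := by
    intro n hn
    obtain ⟨x, hx1, hx10, hxk⟩ := hx n hn
    rw [hxk b]
    obtain ⟨N, hN⟩ : ∃ N : ℕ, N = N1 + ⌈x⌉₊ := ⟨_, rfl⟩
    have h3 := h2 N (by omega)
    have hxN : x ≤ N := by
      rw [hN]
      push_cast
      have := Nat.le_ceil x
      have h5 : (0 : ℝ) ≤ N1 := by positivity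
      linarith
    have h4 : g n ≤ g (N ^ 10) := by
      apply hg
      have h5 : (n : ℝ) ≤ ((N ^ 10 : ℕ) : ℝ) := by
        rw [← hx10]
        push_cast
        exact pow_le_pow_left₀ (by linarith) hxN 10
      exact_mod_cast h5
    have h5 : (g n : ℝ) ≤ C * (N : ℝ) ^ b := by exact_mod_cast h4.trans h3
    have h6 : (N : ℝ) ≤ ((N1 + 2 : ℕ) : ℝ) * x := by
      rw [hN]
      push_cast
      have h7 := (Nat.ceil_lt_add_one (show 0 ≤ x by linarith)).le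
      have h8 : (0 : ℝ) ≤ N1 := by positivity
      nlinarith
    calc (g n : ℝ) ≤ C * (N : ℝ) ^ b := h5
      _ ≤ C * (((N1 + 2 : ℕ) : ℝ) * x) ^ b := by
          apply mul_le_mul_of_nonneg_left _ (by positivity)
          exact pow_le_pow_left₀ (by positivity) h6 b
      _ = _ := by rw [mul_pow]; ring
  refine ⟨(((D * (N0 + 1) : ℕ) : ℝ) ^ a + (2 * D : ℕ) ^ a * C1) + (C * ((N1 + 2 : ℕ) : ℝ) ^ b), ?_,
    fun n hn => ⟨?_, ?_⟩⟩
  · have : (0 : ℝ) < ((D * (N0 + 1) : ℕ) : ℝ) ^ a := by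
      have : 0 < D * (N0 + 1) := by positivity
      have : (0 : ℝ) < ((D * (N0 + 1) : ℕ) : ℝ) := by exact_mod_cast this
      positivity
    positivity
  · refine (low n hn).trans (mul_le_mul_of_nonneg_right ?_ (by positivity))
    have : (0 : ℝ) ≤ C * ((N1 + 2 : ℕ) : ℝ) ^ b := by positivity
    linarith
  · refine (up n hn).trans (mul_le_mul_of_nonneg_right ?_ (by positivity))
    have : (0 : ℝ) ≤ ((D * (N0 + 1) : ℕ) : ℝ) ^ a + ((2 * D : ℕ) : ℝ) ^ a * C1 := by positivity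
    linarith

/-- no power of `n` with exponent `> 0` is bounded -/
lemma unbounded (t : ℝ) (ht : 0 < t) (M : ℝ) : ∃ n : ℕ, 1 ≤ n ∧ M < (n : ℝ) ^ t := by
  have h := (tendsto_rpow_atTop ht).comp tendsto_natCast_atTop_atTop
  obtain ⟨n, hn1, hn2⟩ := ((Filter.eventually_ge_atTop 1).and (h.eventually_gt_atTop M)).exists
  exact ⟨n, hn1, hn2⟩

lemma not_equiv (g : ℕ → ℕ) (m : ℕ) (K : ℝ) (hK : 0 < K)
    (h : ∀ n : ℕ, 1 ≤ n → (n : ℝ) ^ ((m : ℝ) + 1 / 2) ≤ K * g n ∧ (g n : ℝ) ≤ K * (n : ℝ) ^ ((m : ℝ) + 9 / 10))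
    (c : ℕ) : ¬ (Dominated g (fun n => n ^ c) ∧ Dominated (fun n => n ^ c) g) := by
  rintro ⟨⟨A, hA1, hA⟩, ⟨B, hB1, hB⟩⟩
  rcases le_or_gt c m with hc | hc
  · obtain ⟨n, hn1, hn2⟩ := unbounded (1 / 2) (by norm_num) (K * (A * (A : ℝ) ^ c + A))
    have h1 := (h n hn1).1
    have hnr : (1 : ℝ) ≤ n := by exact_mod_cast hn1
    have h2 : (g n : ℝ) ≤ A * ((A : ℝ) * n) ^ c + A := by exact_mod_cast hA n
    have h3 : (g n : ℝ) ≤ (A * (A : ℝ) ^ c + A) * (n : ℝ) ^ m := by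
      have h4 : (n : ℝ) ^ c ≤ (n : ℝ) ^ m := pow_le_pow_right₀ hnr hc
      have h5 : (1 : ℝ) ≤ (n : ℝ) ^ m := one_le_pow₀ hnr
      have hA0 : (0 : ℝ) ≤ A := by positivity
      calc (g n : ℝ) ≤ A * ((A : ℝ) * n) ^ c + A := h2
        _ = A * (A : ℝ) ^ c * (n : ℝ) ^ c + A * 1 := by rw [mul_pow]; ring
        _ ≤ A * (A : ℝ) ^ c * (n : ℝ) ^ m + A * (n : ℝ) ^ m :=
            add_le_add (mul_le_mul_of_nonneg_left h4 (by positivity)) (mul_le_mul_of_nonneg_left h5 hA0)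
        _ = _ := by ring
    rw [Real.rpow_add (by linarith), Real.rpow_natCast] at h1
    have h6 : (n : ℝ) ^ m * (n : ℝ) ^ ((1 : ℝ) / 2) ≤ (n : ℝ) ^ m * (K * (A * (A : ℝ) ^ c + A)) := by
      calc (n : ℝ) ^ m * (n : ℝ) ^ ((1 : ℝ) / 2) ≤ K * g n := h1
        _ ≤ K * ((A * (A : ℝ) ^ c + A) * (n : ℝ) ^ m) := mul_le_mul_of_nonneg_left h3 hK.le
        _ = _ := by ring
    have h7 := le_of_mul_le_mul_left h6 (by positivity)
    linarith
  · obtain ⟨n, hn1, hn2⟩ := unbounded (1 / 10) (by norm_num)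
      (B * K * (B : ℝ) ^ ((m : ℝ) + 9 / 10) + B)
    have hnr : (1 : ℝ) ≤ n := by exact_mod_cast hn1
    have h1 := (h (B * n) (Nat.mul_pos hB1 hn1)).2
    have h2 : (n : ℝ) ^ c ≤ B * (g (B * n) : ℝ) + B := by exact_mod_cast hB n
    have h3 : (n : ℝ) ^ (m + 1) ≤ (n : ℝ) ^ c := pow_le_pow_right₀ hnr (by omega)
    have h4 : (n : ℝ) ^ (m + 1) = (n : ℝ) ^ ((m : ℝ) + 9 / 10) * (n : ℝ) ^ ((1 : ℝ) / 10) := by
      rw [← Real.rpow_add (by linarith), ← Real.rpow_natCast]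
      congr 1
      push_cast
      ring
    have h5 : (((B * n : ℕ) : ℝ)) ^ ((m : ℝ) + 9 / 10) = (B : ℝ) ^ ((m : ℝ) + 9 / 10) * (n : ℝ) ^ ((m : ℝ) + 9 / 10) := by
      rw [Nat.cast_mul, Real.mul_rpow (by positivity) (by positivity)]
    have h6 : (1 : ℝ) ≤ (n : ℝ) ^ ((m : ℝ) + 9 / 10) := Real.one_le_rpow hnr (by positivity)
    have hB0 : (0 : ℝ) ≤ B := by positivity
    rw [h5] at h1
    have h7 : (n : ℝ) ^ ((m : ℝ) + 9 / 10) * (n : ℝ) ^ ((1 : ℝ) / 10) ≤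
        (n : ℝ) ^ ((m : ℝ) + 9 / 10) * (B * K * (B : ℝ) ^ ((m : ℝ) + 9 / 10) + B) := by
      rw [← h4]
      calc (n : ℝ) ^ (m + 1) ≤ B * (g (B * n) : ℝ) + B := h3.trans h2
        _ ≤ B * (K * ((B : ℝ) ^ ((m : ℝ) + 9 / 10) * (n : ℝ) ^ ((m : ℝ) + 9 / 10))) +
            B * (n : ℝ) ^ ((m : ℝ) + 9 / 10) := by
            apply add_le_add (mul_le_mul_of_nonneg_left h1 hB0)
            calc (B : ℝ) = B * 1 := (mul_one _).symm
              _ ≤ _ := mul_le_mul_of_nonneg_left h6 hB0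
        _ = _ := by ring
    have h8 := le_of_mul_le_mul_left h7 (by positivity)
    linarith

/-- For every `β ≥ 229` there is a group with a finite generating set whose geodesic growth function lies between
constant multiples of `n ^ (9 β + 1/2)` and `n ^ (9 β + 9/10)`; in particular it is not equivalent to `n ^ c`
for any natural number `c`. -/
theorem result (β : ℕ) (hβ : 229 ≤ β) :
    ∃ (G : Type) (_ : Group G) (S : Finset G), Subgroup.closure (S : Set G) = ⊤ ∧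
      (∃ K : ℝ, 0 < K ∧ ∀ n : ℕ, 1 ≤ n →
        (n : ℝ) ^ (9 * (β : ℝ) + 1 / 2) ≤ K * geodesicGrowth S n ∧
        (geodesicGrowth S n : ℝ) ≤ K * (n : ℝ) ^ (9 * (β : ℝ) + 9 / 10)) ∧
      ∀ c : ℕ, ¬ (Dominated (geodesicGrowth S) (fun n => n ^ c) ∧
        Dominated (fun n => n ^ c) (geodesicGrowth S)) := by
  obtain ⟨G, instG, S, hcl, hmono, h0, hlow, hup⟩ := core β hβ
  obtain ⟨K, hK, h⟩ := interp (geodesicGrowth S) hmono h0 _ _ hlow hup
  have e1 : (((90 * β + 5 : ℕ) : ℝ)) / 10 = 9 * (β : ℝ) + 1 / 2 := by push_cast; ring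
  have e2 : (((90 * β + 9 : ℕ) : ℝ)) / 10 = 9 * (β : ℝ) + 9 / 10 := by push_cast; ring
  rw [e1, e2] at h
  refine ⟨G, instG, S, hcl, ⟨K, hK, h⟩, fun c => ?_⟩
  refine not_equiv (geodesicGrowth S) (9 * β) K hK (fun n hn => ?_) c
  have := h n hn
  push_cast
  exact this

end Pool.Agent.Results.MP_b6554e_al.NonIntegerDegrees
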